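import Pool.Agent.Helper8_BRW.Stmts

/-!
# Squad BRW (MP_02df95_pr), module G2
-/

set_option autoImplicit false

open MeasureTheory Set Filter

namespace BRW.H32

open BRW

theorem exists_radius (a : ℝ) (ha : 0 < a) (R1 : ℕ) : ∃ R : ℕ, 1 ≤ R ∧ 2 * R1 ≤ R ∧
    1 / 2 ≤ 1 - (1 - Real.cos (Real.pi / (2 * R))) / a ∧
    1 - (1 - Real.cos (Real.pi / (2 * R))) / a ≤ 1 := by
  obtain ⟨N, hN⟩ := exists_nat_ge (4 / a)
  refine ⟨1 + 2 * R1 + N, by omega, by omega, ?_, ?_⟩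
  · have h1 : (1 : ℝ) ≤ ((1 + 2 * R1 + N : ℕ) : ℝ) := by exact_mod_cast (by omega : 1 ≤ 1 + 2 * R1 + N)
    have h2 : 4 / a ≤ ((1 + 2 * R1 + N : ℕ) : ℝ) := hN.trans (by exact_mod_cast (by omega))
    obtain ⟨R, hR⟩ : ∃ R : ℝ, R = ((1 + 2 * R1 + N : ℕ) : ℝ) := ⟨_, rfl⟩
    rw [← hR] at h1 h2 ⊢
    rw [div_le_iff₀ ha] at h2
    have h3 := Real.one_sub_sq_div_two_le_cos (x := Real.pi / (2 * R))
    have hpi : Real.pi ^ 2 ≤ 10 := by
      have := Real.pi_lt_d2
      have := Real.pi_pos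
      nlinarith
    have h4 : (Real.pi / (2 * R)) ^ 2 / 2 ≤ a / 2 := by
      rw [div_pow, div_div, div_le_div_iff₀ (by positivity) (by norm_num)]
      have : (4 : ℝ) ≤ a * R ^ 2 := by nlinarith [mul_nonneg ha.le (by linarith : (0:ℝ) ≤ R)]
      nlinarith
    have h5 : (1 - Real.cos (Real.pi / (2 * R))) / a ≤ 1 / 2 := by
      rw [div_le_iff₀ ha]
      linarith
    linarith
  · have := Real.cos_le_one (Real.pi / (2 * ((1 + 2 * R1 + N : ℕ) : ℝ)))
    have : 0 ≤ (1 - Real.cos (Real.pi / (2 * ((1 + 2 * R1 + N : ℕ) : ℝ)))) / a :=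
      div_nonneg (by linarith) ha.le
    linarith

/-- (G2) convergence to one. -/
theorem g2 (hG0 : G0Stmt) (hG2B : G2BStmt) : G2Stmt := by
  intro a b p ε ha hp hε
  obtain ⟨s1, R1, hs1, H1⟩ := hG2B a b ε ha hε
  obtain ⟨R, hR1, hR2, hκ1, hκ2⟩ := exists_radius a ha R1
  obtain ⟨κ, hκ⟩ : ∃ κ : ℝ, κ = 1 - (1 - Real.cos (Real.pi / (2 * R))) / a := ⟨_, rfl⟩
  rw [← hκ] at hκ1 hκ2
  obtain ⟨p', hp'⟩ : ∃ p' : ℝ, p' = min p 1 := ⟨_, rfl⟩
  have hp'0 : 0 < p' := by rw [hp']; exact lt_min hp one_pos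
  have hp'1 : p' ≤ 1 := by rw [hp']; exact min_le_right _ _
  have hp'p : p' ≤ p := by rw [hp']; exact min_le_left _ _
  obtain ⟨e, he⟩ : ∃ e : ℝ, e = Real.exp (-1) * (1 / 2) ^ R / R.factorial * p' := ⟨_, rfl⟩
  have he0 : 0 < e := by rw [he]; positivity
  have heκ : e ≤ κ := by
    refine le_trans ?_ hκ1
    have h1 : Real.exp (-1) ≤ 1 := Real.exp_le_one_iff.mpr (by norm_num)
    have h2 : ((1 : ℝ) / 2) ^ R ≤ 1 / 2 := by
      calc ((1 : ℝ) / 2) ^ R ≤ (1 / 2) ^ 1 := pow_le_pow_of_le_one (by norm_num) (by norm_num) hR1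
        _ = 1 / 2 := pow_one _
    have h3 : (1 : ℝ) ≤ R.factorial := by exact_mod_cast Nat.one_le_iff_ne_zero.mpr (Nat.factorial_ne_zero R)
    have h4 : Real.exp (-1) * (1 / 2) ^ R ≤ 1 * (1 / 2) :=
      mul_le_mul h1 h2 (by positivity) (by norm_num)
    have h5 : Real.exp (-1) * (1 / 2) ^ R / R.factorial ≤ 1 / 2 := by
      rw [div_le_iff₀ (by linarith)]
      nlinarith
    rw [he]
    calc Real.exp (-1) * (1 / 2) ^ R / R.factorial * p' ≤ 1 / 2 * 1 :=
          mul_le_mul h5 hp'1 hp'0.le (by norm_num)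
      _ = 1 / 2 := mul_one _
  have hκ0 : 0 < κ := by linarith
  refine ⟨1 + 1 / (e * a) + s1, by positivity, ?_⟩
  intro ξ hE f u hu t0 x0 s ht0 hs hpu
  have hea : 0 < 1 / (e * a) := by positivity
  obtain ⟨t, ht⟩ : ∃ t : ℝ, t = s - 1 - s1 := ⟨_, rfl⟩
  have htT : 1 / (e * a) ≤ t := by rw [ht]; linarith
  have ht' : 0 ≤ t := by linarith
  have hbox : ∀ j : ℤ, |j| ≤ R1 → 1 / 8 ≤ u (t0 + 1 + t) (x0 + j) := by
    intro j hj
    have hjR : |j| ≤ (R : ℤ) := by omega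
    have h0 := hG0 a b ξ hE f u hu R κ hR1 hκ hκ0 t0 p' x0 ht0 hp'0 hp'1 (hp'p.trans hpu)
      t j ht' hjR e he heκ
    refine le_trans ?_ h0
    -- the cosine
    have hRpos : (0 : ℝ) < R := by exact_mod_cast (by omega : 0 < R)
    have hcos : 1 / 2 ≤ Real.cos (Real.pi * j / (2 * R)) := by
      rw [← Real.cos_abs, ← Real.cos_pi_div_three]
      apply Real.cos_le_cos_of_nonneg_of_le_pi (abs_nonneg _)
      · have := Real.pi_pos
        linarith
      · rw [abs_div, abs_mul, abs_of_pos Real.pi_pos, abs_of_pos (by positivity : (0 : ℝ) < 2 * R),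
          div_le_div_iff₀ (by positivity) (by norm_num)]
        have hj2 : |(j : ℝ)| ≤ R1 := by
          rw [← Int.cast_abs]
          exact_mod_cast hj
        have hR2' : 2 * (R1 : ℝ) ≤ R := by exact_mod_cast hR2
        have := Real.pi_pos
        nlinarith [mul_nonneg this.le (abs_nonneg (j : ℝ))]
    -- the exponential
    have hE1 : κ ≤ e * Real.exp (a * κ * t) := by
      have h1 := Real.add_one_le_exp (a * κ * t)
      have h2 : κ ≤ e * (a * κ * t) := by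
        have h3 : 1 ≤ e * a * t := by
          rw [div_le_iff₀ (by positivity)] at htT
          linarith
        calc κ = 1 * κ := (one_mul _).symm
          _ ≤ (e * a * t) * κ := mul_le_mul_of_nonneg_right h3 hκ0.le
          _ = e * (a * κ * t) := by ring
      refine h2.trans (mul_le_mul_of_nonneg_left (by linarith) he0.le)
    obtain ⟨X, hX⟩ : ∃ X : ℝ, X = Real.exp (a * κ * t) := ⟨_, rfl⟩
    have hX1 : 1 ≤ X := by rw [hX]; exact Real.one_le_exp (by positivity)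
    rw [← hX] at hE1 ⊢
    have hden : 0 < κ + e * (X - 1) := by
      have : 0 ≤ e * (X - 1) := mul_nonneg he0.le (by linarith)
      linarith
    have hval : 1 / 4 ≤ κ * e * X / (κ + e * (X - 1)) := by
      rw [le_div_iff₀ hden]
      have h1 : κ + e * (X - 1) ≤ 2 * (e * X) := by nlinarith
      have h2 : 1 / 2 * (e * X) ≤ κ * (e * X) :=
        mul_le_mul_of_nonneg_right hκ1 (by positivity)
      nlinarith
    calc (1 : ℝ) / 8 = 1 / 4 * (1 / 2) := by norm_num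
      _ ≤ κ * e * X / (κ + e * (X - 1)) * Real.cos (Real.pi * j / (2 * R)) :=
        mul_le_mul hval hcos (by norm_num) (by linarith)
  have h2 := H1 ξ hE f u hu (t0 + 1 + t) x0 (by linarith) hbox
  have e1 : t0 + 1 + t + s1 = t0 + s := by rw [ht]; ring
  rwa [e1] at h2

end BRW.H32
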