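import Pool.Agent.Helper8_BRW.Stmts

/-!
# Squad BRW (MP_02df95_pr), module HALF
-/

set_option autoImplicit false

open MeasureTheory Set Filter

namespace BRW.H32

open BRW

theorem cont_sol {ξ : ℤ → ℝ} {A : Set ℤ} {f : ℤ → ℝ} {u : ℝ → ℤ → ℝ} (hu : IsSol ξ A f u) (x : ℤ) :
    ContinuousOn (fun t => u t x) (Ici 0) := by
  classical
  by_cases hx : x ∈ A
  · intro t ht
    exact (hu.deriv t x ht hx).continuousWithinAt
  · have h : EqOn (fun t => u t x) (fun _ => f x) (Ici 0) := fun t ht => hu.stat t x ht hx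
    exact continuousOn_const.congr h

/-- Comparison of a multiple `c u` with a later time of a solution `U` on all of `ℤ`. -/
theorem cmp_mul (hMax : MaxStmt) {a b : ℝ} {ξ : ℤ → ℝ} (hE : Env a b ξ) {A : Set ℤ} {f g : ℤ → ℝ}
    {u U : ℝ → ℤ → ℝ} (hu : IsSol ξ A f u) (hU : IsSol ξ univ g U) {c s : ℝ} (hc0 : 0 ≤ c)
    (hc1 : c ≤ 1) (hs : 0 ≤ s) (h0 : ∀ x ∈ A, c * f x ≤ U s x)
    (h1 : ∀ x, x ∉ A → ∀ t, 0 ≤ t → c * f x ≤ U (t + s) x) :
    ∀ t x, 0 ≤ t → c * u t x ≤ U (t + s) x := by
  classical
  intro t x ht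
  have hb : 0 ≤ b := by
    have h := hE.2 0
    linarith [hE.1]
  have key := hMax (fun r x => c * u r x - U (r + s) x) t b 1 (fun _ => 0) hb (fun _ => le_rfl)
    ?_ ?_ ?_ ?_ t x ht le_rfl
  · linarith
  · intro r x hr _
    have h2 := hu.le_one r x hr
    have h3 := hU.nonneg (r + s) x (by linarith)
    have h4 := hu.nonneg r x hr
    have h5 : c * u r x ≤ 1 * 1 := mul_le_mul hc1 h2 h4 (by norm_num)
    linarith
  · intro r x hr _ hr0
    have : r = 0 := le_antisymm hr0 hr
    subst this
    rw [hu.init, zero_add]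
    by_cases hx : x ∈ A
    · linarith [h0 x hx]
    · have := h1 x hx 0 le_rfl
      rw [zero_add] at this
      linarith
  · intro x
    apply ContinuousOn.sub
    · exact continuousOn_const.mul ((cont_sol hu x).mono Icc_subset_Ici_self)
    · have h2 : MapsTo (fun r : ℝ => r + s) (Icc 0 t) (Ici 0) := by
        intro r hr
        have := hr.1
        simp only [mem_Ici]
        linarith
      exact (cont_sol hU x).comp (by fun_prop) h2
  · intro r x hr hrt hpos
    have hxA : x ∈ A := by
      by_contra hx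
      have := h1 x hx r hr
      rw [hu.stat r x hr hx] at hpos
      linarith
    have d1 : HasDerivWithinAt (fun q => c * u q x)
        (c * (lap (u r) x + ξ x * (u r x * (1 - u r x)))) (Ici r) r :=
      ((hu.deriv r x hr hxA).mono (Ici_subset_Ici.mpr hr)).const_mul c
    have d2 : HasDerivWithinAt (fun q => U (q + s) x)
        (lap (U (r + s)) x + ξ x * (U (r + s) x * (1 - U (r + s) x))) (Ici r) r := by
      have h2 := hU.deriv (r + s) x (by linarith) (mem_univ _)
      have h3 : HasDerivWithinAt (fun q : ℝ => q + s) 1 (Ici r) r :=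
        ((hasDerivAt_id r).add_const s).hasDerivWithinAt
      have h4 : MapsTo (fun q : ℝ => q + s) (Ici r) (Ici 0) := by
        intro q hq
        have : r ≤ q := hq
        simp only [mem_Ici]
        linarith
      have h5 := HasDerivWithinAt.scomp r h2 h3 h4
      rw [one_smul] at h5
      exact h5
    refine ⟨_, d1.sub d2, ?_⟩
    have hξ := hE.2 x
    have hξ0 : 0 ≤ ξ x := by linarith [hE.1]
    have m1 := le_max_left (c * u r (x + 1) - U (r + s) (x + 1)) 0
    have m2 := le_max_left (c * u r (x - 1) - U (r + s) (x - 1)) 0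
    obtain ⟨V, hV⟩ : ∃ V : ℝ, V = u r x := ⟨_, rfl⟩
    obtain ⟨W, hW⟩ : ∃ W : ℝ, W = U (r + s) x := ⟨_, rfl⟩
    have hV0 : 0 ≤ V := by rw [hV]; exact hu.nonneg r x hr
    have hV1 : V ≤ 1 := by rw [hV]; exact hu.le_one r x hr
    have hW0 : 0 ≤ W := by rw [hW]; exact hU.nonneg _ x (by linarith)
    unfold lap
    rw [← hV, ← hW]
    rw [← hV, ← hW] at hpos
    -- the nonlinear terms
    have n1 : c * (V * (1 - V)) ≤ (c * V) * (1 - c * V) := by
      have : 0 ≤ c * V * (V - c * V) := by
        apply mul_nonneg (mul_nonneg hc0 hV0)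
        nlinarith
      nlinarith
    have n2 : (c * V) * (1 - c * V) - W * (1 - W) ≤ c * V - W := by
      have h6 : (c * V) * (1 - c * V) - W * (1 - W) = (c * V - W) * (1 - c * V - W) := by ring
      rw [h6]
      have h7 : 0 ≤ c * V := mul_nonneg hc0 hV0
      nlinarith
    have n3 : ξ x * (c * (V * (1 - V)) - W * (1 - W)) ≤ b * (c * V - W) := by
      calc ξ x * (c * (V * (1 - V)) - W * (1 - W)) ≤ ξ x * (c * V - W) :=
            mul_le_mul_of_nonneg_left (by linarith) hξ0
        _ ≤ b * (c * V - W) := mul_le_mul_of_nonneg_right hξ.2 hpos.le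
    have n4 : c * ((u r (x + 1) + u r (x - 1)) / 2 - V + ξ x * (V * (1 - V))) -
        ((U (r + s) (x + 1) + U (r + s) (x - 1)) / 2 - W + ξ x * (W * (1 - W))) =
        ((c * u r (x + 1) - U (r + s) (x + 1)) + (c * u r (x - 1) - U (r + s) (x - 1))) / 2
          - (c * V - W) + ξ x * (c * (V * (1 - V)) - W * (1 - W)) := by ring
    rw [n4]
    linarith

/-- (HALF) `M (τ + s) ≥ y` with probability at least `1/2`, and maintenance of a level. -/
theorem half (hMax : MaxStmt) (hG2 : G2Stmt) : HalfStmt := by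
  intro a b ha
  refine ⟨?_, ?_⟩
  · obtain ⟨s0, hs0, H⟩ := hG2 a b 1 (1 / 2) ha one_pos (by norm_num)
    refine ⟨s0, hs0, ?_⟩
    intro ξ hE y v w hv hw t x ht
    have h := cmp_mul hMax hE hv hw (c := 1 / 2) (s := s0) (by norm_num) (by norm_num) hs0.le ?_ ?_
      t x ht
    · linarith
    · intro x hx
      have : ¬ (y ≤ x) := not_le.mpr hx
      simp only [ind, if_neg this, mul_zero]
      exact hw.nonneg _ _ hs0.le
    · intro x hx t ht
      have hyx : y ≤ x := not_lt.mp hx
      have h1 : 1 ≤ w 0 x := by rw [hw.init]; simp [ind, hyx]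
      have h2 := H ξ hE _ w hw 0 x (t + s0) le_rfl (by linarith) h1
      rw [zero_add] at h2
      simp only [ind, if_pos hyx]
      linarith
  · intro η hη
    obtain ⟨s1, hs1, H⟩ := hG2 a b 1 η ha one_pos hη
    refine ⟨s1, hs1, ?_⟩
    intro ξ hE y w hw t x s ht hs
    rcases le_total 1 η with h1 | h1
    · have h2 := hw.nonneg t x ht
      have h3 := hw.nonneg (t + s) x (by linarith)
      nlinarith
    · apply cmp_mul hMax hE hw hw (c := 1 - η) (s := s) (by linarith) (by linarith) (by linarith)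
        ?_ ?_ t x ht
      · intro x _
        by_cases hyx : y ≤ x
        · have h1 : 1 ≤ w 0 x := by rw [hw.init]; simp [ind, hyx]
          have h2 := H ξ hE _ w hw 0 x s le_rfl hs h1
          rw [zero_add] at h2
          simp only [ind, if_pos hyx]
          linarith
        · simp only [ind, if_neg hyx, mul_zero]
          exact hw.nonneg _ _ (by linarith)
      · intro x hx
        exact absurd (mem_univ x) hx

end BRW.H32
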