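import Pool.Agent.Helper8_BRW.Stmts

/-!
# Squad BRW (MP_02df95_pr), module SQ
-/

set_option autoImplicit false

open MeasureTheory Set Filter

namespace BRW.H32

open BRW

theorem env_b_pos {a b : ℝ} {ξ : ℤ → ℝ} (hE : Env a b ξ) : 0 < b := by
  have h := hE.2 0
  linarith [hE.1]

/-- (SQ) the square of `v` is dominated by the linear solution at half the time. -/
theorem sq (hCRU : CRUStmt) (hLOW : LOWStmt) : SQStmt := by
  intro a b ξ hE y v h hv hh t n ht
  have hb : 0 < b := env_b_pos hE
  rcases Nat.eq_zero_or_pos n with rfl | hn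
  · have e1 : v t (y - ((0 : ℕ) : ℤ)) = 1 := by
      rw [hv.stat t _ ht (by simp)]
      simp [ind]
    have e2 : h (t / 2) (y - ((0 : ℕ) : ℤ)) = 1 := hh.bdry _ _ (by positivity) (by simp)
    rw [e1, e2, one_pow, mul_one]
    exact Real.one_le_exp (by positivity)
  rcases ht.eq_or_lt with rfl | htp
  · have e1 : v 0 (y - (n : ℤ)) = 0 := by
      rw [hv.init]
      have : ¬ (y ≤ y - (n : ℤ)) := by omega
      simp only [ind, if_neg this]
    rw [e1]
    have := hh.nonneg (0 / 2) (y - (n : ℤ)) (by norm_num)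
    have h2 := Real.exp_pos ((2 * b + 10) * 0)
    nlinarith [mul_nonneg h2.le this]
  -- main case
  have hnR : (0 : ℝ) < n := by exact_mod_cast hn
  have hL := (hLOW a b ξ hE y).2 h hh (t / 2) n (by positivity)
  have hv0 := hv.nonneg t (y - (n : ℤ)) ht
  -- lower bound for `h`
  have hfac : (n.factorial : ℝ) ≤ (n : ℝ) ^ n := by exact_mod_cast Nat.factorial_le_pow n
  have hfac0 : (0 : ℝ) < n.factorial := by exact_mod_cast Nat.factorial_pos n
  have hlow : Real.exp (-(t / 2)) * (t / 2 / 2 / n) ^ n ≤ h (t / 2) (y - (n : ℤ)) := by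
    refine le_trans ?_ hL
    rw [div_pow (t / 2 / 2) (n : ℝ) n, mul_div_assoc]
    exact mul_le_mul_of_nonneg_left
      (div_le_div_of_nonneg_left (by positivity) hfac0 hfac) (Real.exp_pos _).le
  -- upper bound for `v ^ 2`
  have hup : ∀ r : ℝ, 1 ≤ r → v t (y - (n : ℤ)) ^ 2 ≤
      Real.exp ((2 * b + r) * t) * ((1 / r) ^ 2) ^ n := by
    intro r hr
    have h1 := (hCRU a b ξ hE y r hr).2.1 v hv t (y - (n : ℤ)) ht
    have e1 : (y - (n : ℤ)) - y = -(n : ℤ) := by ring
    rw [e1, zpow_neg, zpow_natCast] at h1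
    have h2 := pow_le_pow_left₀ hv0 h1 2
    refine h2.trans (le_of_eq ?_)
    rw [mul_pow, ← Real.exp_nat_mul, one_div, ← pow_mul, inv_pow, inv_pow, ← pow_mul,
      Nat.mul_comm n 2]
    congr 2
    push_cast
    ring
  -- it is enough to prove the inequality for some `r`
  have key : ∃ r : ℝ, 1 ≤ r ∧ Real.exp (r * t) * ((1 / r) ^ 2) ^ n ≤
      Real.exp (8 * t) * (t / 2 / 2 / n) ^ n := by
    rcases le_total (n : ℝ) (4 * t) with hc | hc
    · refine ⟨4, by norm_num, ?_⟩
      apply mul_le_mul
      · exact Real.exp_le_exp.mpr (by nlinarith)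
      · apply pow_le_pow_left₀ (by positivity)
        rw [div_div, div_div, le_div_iff₀ (by positivity)]
        nlinarith
      · positivity
      · exact (Real.exp_pos _).le
    · refine ⟨n / t, ?_, ?_⟩
      · rw [le_div_iff₀ htp]
        linarith
      · have e1 : (n : ℝ) / t * t = n := by field_simp
        rw [e1]
        have hs : Real.exp 1 * (4 * t / n) ≤ Real.exp (4 * t / n) := by
          have h1 := Real.add_one_le_exp (4 * t / n - 1)
          have h2 : Real.exp (4 * t / n) = Real.exp 1 * Real.exp (4 * t / n - 1) := by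
            rw [← Real.exp_add]
            congr 1
            ring
          rw [h2]
          exact mul_le_mul_of_nonneg_left (by linarith) (Real.exp_pos _).le
        have hs2 : (Real.exp 1 * (4 * t / n)) ^ n ≤ Real.exp (4 * t) := by
          refine (pow_le_pow_left₀ (by positivity) hs n).trans (le_of_eq ?_)
          rw [← Real.exp_nat_mul]
          congr 1
          field_simp
        have e2 : Real.exp (n : ℝ) * ((1 / (n / t)) ^ 2) ^ n =
            (Real.exp 1 * (4 * t / n)) ^ n * (t / 2 / 2 / n) ^ n := by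
          rw [← mul_pow]
          have e3 : Real.exp (n : ℝ) = Real.exp 1 ^ n := by
            rw [← Real.exp_nat_mul, mul_one]
          rw [e3, ← mul_pow]
          congr 1
          field_simp
          ring
        rw [e2]
        refine mul_le_mul_of_nonneg_right ?_ (by positivity)
        exact hs2.trans (Real.exp_le_exp.mpr (by nlinarith))
  obtain ⟨r, hr, hkey⟩ := key
  calc v t (y - (n : ℤ)) ^ 2 ≤ Real.exp ((2 * b + r) * t) * ((1 / r) ^ 2) ^ n := hup r hr
    _ = Real.exp (2 * b * t) * (Real.exp (r * t) * ((1 / r) ^ 2) ^ n) := by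
        rw [← mul_assoc, ← Real.exp_add]
        congr 2
        ring
    _ ≤ Real.exp (2 * b * t) * (Real.exp (8 * t) * (t / 2 / 2 / n) ^ n) :=
        mul_le_mul_of_nonneg_left hkey (Real.exp_pos _).le
    _ ≤ Real.exp ((2 * b + 10) * t) * (Real.exp (-(t / 2)) * (t / 2 / 2 / n) ^ n) := by
        rw [← mul_assoc, ← mul_assoc, ← Real.exp_add, ← Real.exp_add]
        refine mul_le_mul_of_nonneg_right (Real.exp_le_exp.mpr ?_) (by positivity)
        nlinarith
    _ ≤ Real.exp ((2 * b + 10) * t) * h (t / 2) (y - (n : ℤ)) :=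
        mul_le_mul_of_nonneg_left hlow (Real.exp_pos _).le

end BRW.H32
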